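import Pool.Agent.Lib.EPK.FULL
import Pool.Agent.Lib.EPK.CNT
import Pool.Agent.Lib.EPK.CLOR
import Pool.Agent.Lib.EPK.GENK
import Pool.Agent.Lib.EPK.KEY
import Pool.Agent.Lib.EPK.DIM
import Pool.Agent.Lib.EPK.MIN
import Pool.Agent.Lib.EPK.DER
import Pool.Agent.Lib.EPK.TR
import Pool.Agent.Lib.EPK.RES
import Pool.Agent.Lib.EPK.EXT
import Pool.Agent.Lib.EPK.JAC
import Pool.Agent.Lib.EPK.TAN
import Pool.Agent.Lib.EPK.REL

/-!
# MP_4c2ad3_nt: the values of `π ^ π` under the full conjecture of Schanuel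

Let `L` and `r > 0` be real. There are a countable algebraically closed subfield `K` of `ℂ`, closed
under complex conjugation, exponentials and logarithms, a complement `U` of `K` in `ℂ` over `ℚ` and
a map `E` which equals the exponential function on `U` and differs from it by factors in `K`
everywhere, such that `E` is a homomorphism from `(ℂ, +)` onto the nonzero complex numbers with
kernel `2 π i ℤ`, commutes with complex conjugation, is positive on `ℝ`, satisfies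
Schanuel's conjecture (`n ≤ trdeg ℚ(z, E z)` for all `ℚ`-linearly independent
`z_1, ..., z_n`), `E L = π` and `E (π L) = r`, if and only if `π, L, r` are algebraically
independent over `ℚ`. Such `L, r` exist.
-/

set_option autoImplicit false

open Complex

namespace Pool.Agent.Results.MP_4c2ad3_nt.SchanuelFull

/-- `r` is a possible value of `E (π L)` under the full conjecture of Schanuel -/
def FullValue (L r : ℝ) : Prop :=
  ∃ (K : IntermediateField ℚ ℂ) (U : Submodule ℚ ℂ) (E : ℂ → ℂ),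
    (K : Set ℂ).Countable ∧ (∀ x : ℂ, IsAlgebraic K x → x ∈ K) ∧ (∀ z ∈ K, cexp z ∈ K) ∧
    (∀ z : ℂ, cexp z ∈ K → z ∈ K) ∧ (∀ z ∈ K, (starRingEnd ℂ) z ∈ K) ∧
    IsCompl (Subalgebra.toSubmodule K.toSubalgebra) U ∧ (∀ u ∈ U, E u = cexp u) ∧
    (∀ z : ℂ, E z / cexp z ∈ K) ∧
    (∀ x y, E (x + y) = E x * E y) ∧
    (∀ x, E x = 1 ↔ ∃ n : ℤ, x = n * (2 * Real.pi * I)) ∧
    (∀ y, y ≠ 0 → ∃ x, E x = y) ∧
    (∀ z, E ((starRingEnd ℂ) z) = (starRingEnd ℂ) (E z)) ∧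
    (∀ x : ℝ, ∃ y : ℝ, 0 < y ∧ E x = y) ∧
    E (L : ℂ) = (Real.pi : ℂ) ∧ E ((Real.pi : ℂ) * (L : ℂ)) = (r : ℂ) ∧
    (∀ (n : ℕ) (z : Fin n → ℂ), LinearIndependent ℚ z →
      (n : Cardinal) ≤ Algebra.trdeg ℚ
        (IntermediateField.adjoin ℚ (Set.range z ∪ Set.range (fun i => E (z i)))))

private theorem full (L r : ℝ) (hr : 0 < r) (hind : AlgebraicIndependent ℚ ![Real.pi, L, r]) :
    FullValue L r := by
  have hAX : EPK.S_AX := EPK.kAX EPK.kDIM EPK.kMIN (EPK.kKEY EPK.kDER EPK.kTR EPK.kRES)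
  have hREL : EPK.S_REL := EPK.kREL hAX (EPK.kTAN EPK.kJAC EPK.kEXT)
  have hL : L ≠ 0 := by
    rintro rfl
    have h1 := hind.transcendental 1
    exact h1 isAlgebraic_zero
  have h : ∀ q : ℚ, r ≠ Real.pi ^ (q : ℝ) := EPK.FULL_pow L r hr hind
  obtain ⟨K, U, E, h1, h2, h3, h4, h5, h6, h7, h8, h9, h10, h11, h12, h13, h14, h15, h16, -,
    -⟩ := EPK.kCOREL (EPK.kCLOR EPK.kCNT) EPK.kGENK hREL r L hL hr h
  refine ⟨K, U, E, h1, h2, h3, h4, h5, h7, h8, ?_, h9, h10, h11, h12, h13, h14, h15, ?_⟩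
  · intro z
    have hz : z ∈ Subalgebra.toSubmodule K.toSubalgebra ⊔ U := by
      rw [h7.sup_eq_top]; trivial
    obtain ⟨k, hk, u, hu, rfl⟩ := Submodule.mem_sup.1 hz
    have hk' : k ∈ K := hk
    rw [h9, Complex.exp_add, h8 u hu, mul_div_mul_right _ _ (Complex.exp_ne_zero u)]
    exact K.div_mem (h6 k hk') (h3 k hk')
  · exact EPK.FULL_sch EPI.tCL (EPI.tTUP EPI.tCL (EPI.tTD1 EPI.tCL)) (EPI.tBASE EPI.tCL) r L hind E
      h9 h10 h14 h15 h16

theorem result :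
    (∃ L r : ℝ, 0 < r ∧ AlgebraicIndependent ℚ ![Real.pi, L, r]) ∧
    ∀ L r : ℝ, 0 < r → (FullValue L r ↔ AlgebraicIndependent ℚ ![Real.pi, L, r]) := by
  refine ⟨EPK.FULL_ex EPI.tCL, fun L r hr => ⟨fun h => ?_, full L r hr⟩⟩
  obtain ⟨K, U, E, -, -, -, -, -, -, -, -, h9, h10, -, -, -, h14, h15, h16⟩ := h
  exact EPK.FULL_nec EPI.tCL r L E h10 h14 h15 h16

end Pool.Agent.Results.MP_4c2ad3_nt.SchanuelFull
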