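import Pool.Agent.Lib.EPK.FINL
import Pool.Agent.Lib.EPK.CNT
import Pool.Agent.Lib.EPK.CLOR
import Pool.Agent.Lib.EPK.GENK
import Pool.Agent.Lib.EPK.KEY
import Pool.Agent.Lib.EPK.DIM
import Pool.Agent.Lib.EPK.MIN
import Pool.Agent.Lib.EPK.DER
import Pool.Agent.Lib.EPK.TR
import Pool.Agent.Lib.EPK.RES
import Pool.Agent.Lib.EPK.EXT
import Pool.Agent.Lib.EPK.JAC
import Pool.Agent.Lib.EPK.TAN
import Pool.Agent.Lib.EPK.REL

/-!
# MP_4c2ad3_nt: Schanuel's inequality relative to `2 π i, log π, π log π` does not bound `π ^ π`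

Let `L ≠ 0` be real, for example `L = log π`, and `D = ⟨2 π i, L, π L⟩` over `ℚ`.
For every real `r > 0` which is not a rational power of `π`, in particular for every
algebraic (so for every rational) `r > 0`, `r ≠ 1`, there are a countable algebraically closed
subfield `K` of `ℂ`, closed under complex conjugation, exponentials and logarithms, a complement
`U` of `K` in `ℂ` over `ℚ` and a map `E` which equals the exponential function on `U` and differs
from it by factors in `K` everywhere, such that: `E` is a homomorphism from `(ℂ, +)` onto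
the nonzero complex numbers with kernel `2 π i ℤ`, it commutes with complex conjugation and is
positive on `ℝ`; `E L = π` and `E (π L) = r`; and all failures of Schanuel's inequality for `E`
come from `D`: for every `ℚ`-linearly independent tuple `z_1, ..., z_n` and every basis
`w_1, ..., w_m` of the intersection of its `ℚ`-span with `D`,
`trdeg ℚ(z, E z) - n ≥ trdeg ℚ(w, E w) - m`. In particular `trdeg ℚ(z, E z) ≥ n` if this
intersection is contained in `ℚ 2 π i`. If `π` and `L` are algebraically independent (such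
`L` exist), then `trdeg ℚ(z, E z) ≥ n` unless the span contains `D`, and
`trdeg ℚ(z, E z) + 1 ≥ n` always. No rational power of `π` occurs as such an `r`.
-/

set_option autoImplicit false

open Complex

namespace Pool.Agent.Results.MP_4c2ad3_nt.SchanuelPiPi

/-- `r` is a possible value of `E (π L)` -/
def PossibleValue (L r : ℝ) : Prop :=
  ∃ (K : IntermediateField ℚ ℂ) (U : Submodule ℚ ℂ) (E : ℂ → ℂ),
    (K : Set ℂ).Countable ∧ (∀ x : ℂ, IsAlgebraic K x → x ∈ K) ∧ (∀ z ∈ K, cexp z ∈ K) ∧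
    (∀ z : ℂ, cexp z ∈ K → z ∈ K) ∧ (∀ z ∈ K, (starRingEnd ℂ) z ∈ K) ∧
    IsCompl (Subalgebra.toSubmodule K.toSubalgebra) U ∧ (∀ u ∈ U, E u = cexp u) ∧
    (∀ z : ℂ, E z / cexp z ∈ K) ∧
    (∀ x y, E (x + y) = E x * E y) ∧
    (∀ x, E x = 1 ↔ ∃ n : ℤ, x = n * (2 * Real.pi * I)) ∧
    (∀ y, y ≠ 0 → ∃ x, E x = y) ∧
    (∀ z, E ((starRingEnd ℂ) z) = (starRingEnd ℂ) (E z)) ∧
    (∀ x : ℝ, ∃ y : ℝ, 0 < y ∧ E x = y) ∧
    E (L : ℂ) = (Real.pi : ℂ) ∧ E ((Real.pi : ℂ) * (L : ℂ)) = (r : ℂ) ∧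
    (∀ (n m k : ℕ) (z : Fin n → ℂ) (w : Fin m → ℂ), LinearIndependent ℚ z →
      LinearIndependent ℚ w → Submodule.span ℚ (Set.range w) = Submodule.span ℚ (Set.range z) ⊓
        Submodule.span ℚ {2 * (Real.pi : ℂ) * I, (L : ℂ), (Real.pi : ℂ) * (L : ℂ)} →
      (k : Cardinal) ≤ Algebra.trdeg ℚ
        (IntermediateField.adjoin ℚ (Set.range w ∪ Set.range (fun i => E (w i)))) →
      (n : Cardinal) + k ≤ Algebra.trdeg ℚ
        (IntermediateField.adjoin ℚ (Set.range z ∪ Set.range (fun i => E (z i)))) + m) ∧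
    (∀ (n : ℕ) (z : Fin n → ℂ), LinearIndependent ℚ z →
      Submodule.span ℚ (Set.range z) ⊓
        Submodule.span ℚ {2 * (Real.pi : ℂ) * I, (L : ℂ), (Real.pi : ℂ) * (L : ℂ)} ≤
        Submodule.span ℚ {2 * (Real.pi : ℂ) * I} →
      (n : Cardinal) ≤ Algebra.trdeg ℚ
        (IntermediateField.adjoin ℚ (Set.range z ∪ Set.range (fun i => E (z i))))) ∧
    (AlgebraicIndependent ℚ ![Real.pi, L] →
      (∀ (n : ℕ) (z : Fin n → ℂ), LinearIndependent ℚ z →
        ¬ (({2 * (Real.pi : ℂ) * I, (L : ℂ), (Real.pi : ℂ) * (L : ℂ)} : Set ℂ) ⊆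
          (Submodule.span ℚ (Set.range z) : Set ℂ)) →
        (n : Cardinal) ≤ Algebra.trdeg ℚ
          (IntermediateField.adjoin ℚ (Set.range z ∪ Set.range (fun i => E (z i))))) ∧
      (∀ (n : ℕ) (z : Fin n → ℂ), LinearIndependent ℚ z →
        (n : Cardinal) ≤ Algebra.trdeg ℚ
          (IntermediateField.adjoin ℚ (Set.range z ∪ Set.range (fun i => E (z i)))) + 1))

/-- necessity: a rational power of `π` does not occur -/
private theorem necessity (r L : ℝ) (hL : L ≠ 0) (E : ℂ → ℂ) (e1 : ∀ x y, E (x + y) = E x * E y)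
    (e3 : ∀ x, E x = 1 ↔ ∃ n : ℤ, x = n * (2 * Real.pi * I)) (eL : E (L : ℂ) = (Real.pi : ℂ))
    (eR : E ((Real.pi : ℂ) * (L : ℂ)) = (r : ℂ)) : ∀ q : ℚ, r ≠ Real.pi ^ (q : ℝ) := by
  intro q hq
  have h0 : E 0 = 1 := (e3 0).2 ⟨0, by simp⟩
  have hn : ∀ (k : ℕ) (x : ℂ), E ((k : ℂ) * x) = E x ^ k := by
    intro k x
    induction k with
    | zero => simp [h0]
    | succ k ih => rw [pow_succ, ← ih, ← e1]; push_cast; ring_nf
  have hne : ∀ x : ℂ, E x ≠ 0 := by
    intro x hx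
    have h1 := e1 x (-x)
    rw [add_neg_cancel, h0, hx, zero_mul] at h1
    exact one_ne_zero h1
  have hinv : ∀ x : ℂ, E (-x) = (E x)⁻¹ := by
    intro x
    have h1 := e1 x (-x)
    rw [add_neg_cancel, h0] at h1
    exact eq_inv_of_mul_eq_one_right h1.symm
  have hz : ∀ (k : ℤ) (x : ℂ), E ((k : ℂ) * x) = E x ^ k := by
    intro k x
    rcases Int.eq_nat_or_neg k with ⟨m, rfl | rfl⟩
    · rw [Int.cast_natCast, hn, zpow_natCast]
    · rw [zpow_neg, zpow_natCast, ← hn, ← hinv]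
      congr 1
      push_cast
      ring
  have hpow : r ^ q.den = Real.pi ^ q.num := by
    rw [hq, ← Real.rpow_natCast, ← Real.rpow_mul Real.pi_pos.le, ← Real.rpow_intCast]
    congr 1
    exact_mod_cast Rat.mul_den_eq_num q
  have key : E ((q.den : ℂ) * ((Real.pi : ℂ) * L) + -((q.num : ℂ) * L)) = 1 := by
    rw [e1, hn, hinv, hz, eR, eL]
    have h1 : ((r : ℝ) : ℂ) ^ q.den = ((Real.pi : ℝ) : ℂ) ^ q.num := by exact_mod_cast hpow
    rw [h1, mul_inv_cancel₀]
    exact zpow_ne_zero _ (by exact_mod_cast Real.pi_ne_zero)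
  obtain ⟨n, hnn⟩ := (e3 _).1 key
  have h2 := congrArg Complex.re hnn
  simp at h2
  have h3 : ((q.den : ℝ) * Real.pi - (q.num : ℝ)) * L = 0 := by
    linear_combination h2
  rcases mul_eq_zero.1 h3 with h4 | h4
  · apply irrational_pi
    refine ⟨(q.num : ℚ) / (q.den : ℚ), ?_⟩
    have hd : (q.den : ℝ) ≠ 0 := by exact_mod_cast q.den_ne_zero
    push_cast
    field_simp
    linarith
  · exact hL h4

private theorem possible (L r : ℝ) (hL : L ≠ 0) (hr : 0 < r)
    (h : ∀ q : ℚ, r ≠ Real.pi ^ (q : ℝ)) : PossibleValue L r := by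
  have hAX : EPK.S_AX := EPK.kAX EPK.kDIM EPK.kMIN (EPK.kKEY EPK.kDER EPK.kTR EPK.kRES)
  have hREL : EPK.S_REL := EPK.kREL hAX (EPK.kTAN EPK.kJAC EPK.kEXT)
  obtain ⟨K, U, E, h1, h2, h3, h4, h5, h6, h7, h8, h9, h10, h11, h12, h13, h14, h15, h16, h17,
    h18⟩ := EPK.kCOREL (EPK.kCLOR EPK.kCNT) EPK.kGENK hREL r L hL hr h
  refine ⟨K, U, E, h1, h2, h3, h4, h5, h7, h8, ?_, h9, h10, h11, h12, h13, h14, h15, h16, h17,
    h18⟩
  intro z
  have hz : z ∈ Subalgebra.toSubmodule K.toSubalgebra ⊔ U := by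
    rw [h7.sup_eq_top]; trivial
  obtain ⟨k, hk, u, hu, rfl⟩ := Submodule.mem_sup.1 hz
  have hk' : k ∈ K := hk
  rw [h9, Complex.exp_add, h8 u hu, mul_div_mul_right _ _ (Complex.exp_ne_zero u)]
  exact K.div_mem (h6 k hk') (h3 k hk')

theorem result :
    (∃ L : ℝ, AlgebraicIndependent ℚ ![Real.pi, L]) ∧
    ∀ L : ℝ, L ≠ 0 → ∀ r : ℝ, 0 < r →
      (PossibleValue L r ↔ ∀ q : ℚ, r ≠ Real.pi ^ (q : ℝ)) ∧
      (IsAlgebraic ℚ r → r ≠ 1 → PossibleValue L r) := by
  refine ⟨EPI.tEX, fun L hL r hr => ⟨⟨fun h => ?_, fun h => possible L r hL hr h⟩,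
    fun ha h1 => possible L r hL hr (fun q => EPI.tALG r h1 ha q)⟩⟩
  obtain ⟨K, U, E, -, -, -, -, -, -, -, -, h9, h10, -, -, -, h14, h15, -, -, -⟩ := h
  exact necessity r L hL E h9 h10 h14 h15

end Pool.Agent.Results.MP_4c2ad3_nt.SchanuelPiPi
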